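import Pool.Agent.W670.LL.Stm

set_option autoImplicit false

/-!
Project LL, part P7: Frobenius is `± (2a + d √-3)`.
-/

namespace Pool.Agent.W790.LL

open Pool.Agent.W670.LL WeierstrassCurve Polynomial

section ev
variable {k : Type} [Field k] {L : Type} [Field L] [Algebra k L]

theorem ev (f : RatFunc k) (u v : k[X]) (h : f * algebraMap k[X] (RatFunc k) v =
    algebraMap k[X] (RatFunc k) u) (x₀ : L) (hv : aeval x₀ v ≠ 0) :
    f.denom.aeval x₀ ≠ (0 : L) ∧
      f.eval (algebraMap k L) x₀ = aeval x₀ u / aeval x₀ v := by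
  have hv0 : v ≠ 0 := by
    rintro rfl
    simp at hv
  have hf : f = algebraMap _ _ u / algebraMap _ _ v := by
    rw [eq_div_iff (RatFunc.algebraMap_ne_zero hv0)]
    exact h
  have hd : f.denom ∣ v := by
    rw [hf]
    exact RatFunc.denom_div_dvd _ _
  have hd0 : aeval x₀ f.denom ≠ 0 := by
    intro h0
    obtain ⟨w, hw⟩ := hd
    apply hv
    rw [hw, map_mul, h0, zero_mul]
  refine ⟨hd0, ?_⟩
  have hm := (RatFunc.num_mul_eq_mul_denom_iff hv0).2 hf
  have hm' := congrArg (aeval x₀) hm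
  rw [map_mul, map_mul] at hm'
  rw [RatFunc.eval, ← aeval_def, ← aeval_def, div_eq_div_iff hd0 hv]
  exact hm'

/-- the polynomial `λ` -/
noncomputable def lamP (k : Type) [Field k] : k[X] := X ^ 3 + 6 * X ^ 2 - 3 * X

theorem lam_eq : lam k = algebraMap k[X] (RatFunc k) (lamP k) := by
  simp only [lam, lamP, map_sub, map_add, map_mul, map_pow, RatFunc.algebraMap_X, map_ofNat]

theorem lamP_ne : lamP k ≠ 0 := by
  intro h
  have h1 := congrArg (fun p => Polynomial.coeff p 3) h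
  simp [lamP, coeff_X, coeff_X_pow, coeff_ofNat_mul] at h1

theorem lam_ne : lam k ≠ 0 := by
  rw [lam_eq]
  exact RatFunc.algebraMap_ne_zero lamP_ne

theorem lam_aeval (x₀ : L) : aeval x₀ (lamP k) = x₀ ^ 3 + 6 * x₀ ^ 2 - 3 * x₀ := by
  simp only [lamP, map_sub, map_add, map_mul, map_pow, aeval_X, map_ofNat]

theorem gx_pt {R : Gp k} {A B : RatFunc k} (h : IsPt R A B) : gx R = A := by
  obtain ⟨hn, rfl⟩ := h
  exact mul_div_cancel_left₀ _ lam_ne

theorem gy_pt {R : Gp k} {A B : RatFunc k} (h : IsPt R A B) : gy R = B := by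
  obtain ⟨hn, rfl⟩ := h
  exact mul_div_cancel_left₀ _ (pow_ne_zero 2 lam_ne)

theorem sp_unique {x₀ y₀ : L} {R : Gp k} {Q Q' : Pt (6 : L) (-3)} (h : IsSp x₀ y₀ R Q)
    (h' : IsSp x₀ y₀ R Q') : Q = Q' := by
  rcases h with ⟨h1, h2⟩ | ⟨A, B, h0, hR, -, -, hQ⟩
  · rcases h' with ⟨-, h2'⟩ | ⟨A', B', h0', ⟨hn', hR'⟩, -⟩
    · rw [h2, h2']
    · rw [h1] at hR'
      cases hR'
  · rcases h' with ⟨h1, -⟩ | ⟨A', B', h0', hR', -, -, hQ'⟩
    · obtain ⟨hn, hR⟩ := hR
      rw [h1] at hR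
      cases hR
    · have e1 : A = A' := by rw [← gx_pt hR, gx_pt hR']
      have e2 : B = B' := by rw [← gy_pt hR, gy_pt hR']
      subst e1 e2
      rw [hQ, hQ']

variable [DecidableEq (RatFunc k)] [DecidableEq L]

theorem sp_neg {x₀ y₀ : L} {R : Gp k} {Q : Pt (6 : L) (-3)} (h : IsSp x₀ y₀ R Q) :
    IsSp x₀ y₀ (-R) (-Q) := by
  rcases h with ⟨h1, h2⟩ | ⟨A, B, h0, ⟨hn, hR⟩, hA, hB, hQ⟩
  · left
    rw [h1, h2]
    exact ⟨neg_zero, neg_zero⟩
  · right
    obtain ⟨hn', e⟩ := neg_mk hn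
    have e2 : -(lam k ^ 2 * B) = lam k ^ 2 * -B := by ring
    obtain ⟨h0', f⟩ := neg_mk h0
    have hv := ev (-B) (-B.num) B.denom (by
      rw [map_neg, neg_mul]
      congr 1
      have := RatFunc.num_div_denom B
      rw [div_eq_iff (RatFunc.algebraMap_ne_zero (RatFunc.denom_ne_zero B))] at this
      exact this.symm) x₀ hB
    have e3 : (-B).eval (algebraMap k L) x₀ = - B.eval (algebraMap k L) x₀ := by
      rw [hv.2, map_neg, neg_div, RatFunc.eval, aeval_def, aeval_def]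
    have e4 : -(y₀ * B.eval (algebraMap k L) x₀) = y₀ * (-B).eval (algebraMap k L) x₀ := by
      rw [e3]; ring
    refine ⟨A, -B, ?_, ?_, hA, hv.1, ?_⟩
    · rw [← e4]; exact h0'
    · rw [hR, e]
      simp only [e2]
      exact ⟨_, rfl⟩
    · rw [hQ, f]
      simp only [e4]

/-- the point `R` specialises to `f` outside of a finite set -/
def Spz (L : Type) [Field L] [Algebra k L] (R : Gp k) (f : Pt (6 : L) (-3) → Pt (6 : L) (-3)) :
    Prop :=
  ∃ B : Set L, B.Finite ∧ ∀ x₀ y₀ h, x₀ ∉ B → IsSp x₀ y₀ R (f (Affine.Point.some x₀ y₀ h))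

theorem Spz.add (h8 : S_SP) (k2 : (2 : k) ≠ 0) (k3 : (3 : k) ≠ 0) {R R' : Gp k}
    {f f' : Pt (6 : L) (-3) → Pt (6 : L) (-3)} (h : Spz L R f) (h' : Spz L R' f') :
    Spz L (R + R') (fun Q => f Q + f' Q) := by
  obtain ⟨B, hB, hB'⟩ := h
  obtain ⟨C, hC, hC'⟩ := h'
  obtain ⟨E, hE, hE'⟩ := h8 k L k2 k3 R R'
  refine ⟨B ∪ C ∪ E, (hB.union hC).union hE, ?_⟩
  intro x₀ y₀ h hx
  simp only [Set.mem_union, not_or] at hx
  refine hE' x₀ y₀ ?_ hx.2 _ _ (hB' x₀ y₀ h hx.1.1) (hC' x₀ y₀ h hx.1.2)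
  have := eqn h
  linear_combination this

theorem Spz.neg {R : Gp k} {f : Pt (6 : L) (-3) → Pt (6 : L) (-3)} (h : Spz L R f) :
    Spz L (-R) (fun Q => -f Q) := by
  obtain ⟨B, hB, hB'⟩ := h
  exact ⟨B, hB, fun x₀ y₀ h hx => sp_neg (hB' x₀ y₀ h hx)⟩

theorem Spz.zsmul (h8 : S_SP) (k2 : (2 : k) ≠ 0) (k3 : (3 : k) ≠ 0) {R : Gp k}
    {f : Pt (6 : L) (-3) → Pt (6 : L) (-3)} (h : Spz L R f) (n : ℤ) :
    Spz L (n • R) (fun Q => n • f Q) := by
  induction n using Int.induction_on with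
  | zero => exact ⟨∅, Set.finite_empty, fun x₀ y₀ h _ => Or.inl ⟨zero_smul _ _, zero_smul _ _⟩⟩
  | succ i ih =>
    have := ih.add h8 k2 k3 h
    simpa only [add_smul, one_smul] using this
  | pred i ih =>
    have := ih.add h8 k2 k3 h.neg
    have e1 : (-(i : ℤ) - 1) • R = -(i : ℤ) • R + -R := by
      rw [sub_smul, one_smul, sub_eq_add_neg]
    have e2 : (fun Q => (-(i : ℤ) - 1) • f Q) = (fun Q => -(i : ℤ) • f Q + -f Q) := by
      funext Q
      rw [sub_smul, one_smul, sub_eq_add_neg]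
    rw [e1, e2]
    exact this

end ev

section pts
variable {K : Type} [Field K] [DecidableEq K]

theorem bad_fin {B : Set K} (hB : B.Finite) :
    {Q : Pt (6 : K) (-3) | Q = 0 ∨ ∃ x y h, Q = Affine.Point.some x y h ∧ x ∈ B}.Finite := by
  have h1 : ∀ x : K, {Q : Pt (6 : K) (-3) | ∃ y h, Q = Affine.Point.some x y h}.Finite := by
    intro x
    by_cases he : ∃ Q₀ : Pt (6 : K) (-3), ∃ y h, Q₀ = Affine.Point.some x y h
    · obtain ⟨Q₀, y₀, h₀, rfl⟩ := he
      refine (Set.toFinite {(Affine.Point.some x y₀ h₀ : Pt (6 : K) (-3)),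
        -Affine.Point.some x y₀ h₀}).subset ?_
      rintro Q ⟨y, h, rfl⟩
      have e : y ^ 2 = y₀ ^ 2 := by rw [eqn h, eqn h₀]
      rcases sq_eq_sq_iff_eq_or_eq_neg.1 e with rfl | rfl
      · left; rfl
      · right
        obtain ⟨h', e'⟩ := neg_mk h₀
        rw [Set.mem_singleton_iff, e']
    · refine Set.finite_empty.subset ?_
      rintro Q ⟨y, h, rfl⟩
      exact he ⟨_, y, h, rfl⟩
  refine ((Set.finite_singleton (0 : Pt (6 : K) (-3))).union
    (hB.biUnion fun x _ => h1 x)).subset ?_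
  rintro Q (hQ | ⟨x, y, h, hQ, hx⟩)
  · left; exact hQ
  · right
    simp only [Set.mem_iUnion]
    exact ⟨x, hx, y, h, hQ⟩

omit [DecidableEq K] in
theorem pts_inf [IsAlgClosed K] (k2 : (2 : K) ≠ 0) (k3 : (3 : K) ≠ 0) :
    Infinite (Pt (6 : K) (-3)) := by
  have hinf : Infinite K := inferInstance
  have hex : ∀ x : K, ∃ y, (Cv (6 : K) (-3)).Nonsingular x y := by
    intro x
    obtain ⟨y, hy⟩ := IsAlgClosed.exists_pow_nat_eq (x ^ 3 + 6 * x ^ 2 - 3 * x)
      (n := 2) (by norm_num)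
    refine ⟨y, nons k2 (neg_ne_zero.2 k3) ?_ (by rw [hy]; ring)⟩
    have : (6 : K) ^ 2 - 4 * -3 = 2 ^ 4 * 3 := by norm_num
    rw [this]
    exact mul_ne_zero (pow_ne_zero _ k2) k3
  choose y hy using hex
  refine Infinite.of_injective (fun x => Affine.Point.some x (y x) (hy x)) ?_
  intro x x' h
  injection h

theorem gen_zero [IsAlgClosed K] (k2 : (2 : K) ≠ 0) (k3 : (3 : K) ≠ 0)
    (f : Pt (6 : K) (-3) →+ Pt (6 : K) (-3)) (c : Pt (6 : K) (-3)) {B : Set K} (hB : B.Finite)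
    (h : ∀ x y h, x ∉ B → f (Affine.Point.some x y h) = c) : ∀ Q, f Q = 0 := by
  intro Q
  have := pts_inf k2 k3
  have hbad := bad_fin hB
  have hgood : ∀ R : Pt (6 : K) (-3), R ∉ {Q : Pt (6 : K) (-3) | Q = 0 ∨
      ∃ x y h, Q = Affine.Point.some x y h ∧ x ∈ B} → f R = c := by
    intro R hR
    simp only [Set.mem_ofPred_eq, not_or, not_exists, not_and] at hR
    rcases R with _ | ⟨x, y, hn⟩
    · exact absurd rfl hR.1
    · exact h x y hn (hR.2 x y hn rfl)
  have hbad2 := hbad.preimage (f := fun R => Q + R) (add_right_injective Q).injOn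
  obtain ⟨R, hR⟩ := ((hbad.union hbad2).infinite_compl).nonempty
  rw [Set.mem_compl_iff, Set.mem_union, not_or] at hR
  have e1 := hgood R hR.1
  have e2 := hgood (Q + R) hR.2
  rw [map_add, e1] at e2
  simpa using e2

end pts

section main

theorem d_ne {q : ℕ} [Fact q.Prime] (hq3 : 3 < q) {a d : ℤ}
    (h : (q : ℤ) = 4 * a ^ 2 + 3 * d ^ 2) : (d : ZMod q) ≠ 0 := by
  intro h0
  have hqp : q.Prime := Fact.out
  rw [ZMod.intCast_zmod_eq_zero_iff_dvd] at h0
  obtain ⟨e, he⟩ := h0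
  have hq0 : (3 : ℤ) < q := by exact_mod_cast hq3
  by_cases he0 : e = 0
  · subst he0
    rw [mul_zero] at he
    subst he
    have h2 : (2 : ℤ) ∣ q := ⟨2 * a ^ 2, by rw [h]; ring⟩
    have h2' : 2 ∣ q := by exact_mod_cast h2
    have := (Nat.prime_dvd_prime_iff_eq Nat.prime_two hqp).1 h2'
    omega
  · have he1 : 1 ≤ e ^ 2 := by
      have : 0 < e ^ 2 := by positivity
      omega
    have e1 : (q : ℤ) ^ 2 * e ^ 2 = d ^ 2 := by rw [he]; ring
    have e2 : (q : ℤ) ^ 2 * 1 ≤ (q : ℤ) ^ 2 * e ^ 2 :=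
      mul_le_mul_of_nonneg_left he1 (by positivity)
    nlinarith [sq_nonneg a]

theorem D_sx {k : Type} [Field k] (k3 : (3 : k) ≠ 0)
    (D : Derivation k (RatFunc k) (RatFunc k)) (hD : D RatFunc.X = 1) (r : RatFunc k)
    (hr : r ≠ 0) : D (sx RatFunc.X) = r * sy r RatFunc.X 1 := by
  have h3 : (3 : RatFunc k) ≠ 0 := by
    have := (map_ne_zero (algebraMap k (RatFunc k))).2 k3
    rwa [map_ofNat] at this
  have h1 : (RatFunc.X - 1 : RatFunc k) ≠ 0 := by
    have e : (RatFunc.X - 1 : RatFunc k) = algebraMap k[X] (RatFunc k) (X - 1) := by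
      rw [map_sub, RatFunc.algebraMap_X, map_one]
    rw [e]
    exact RatFunc.algebraMap_ne_zero (X_sub_C_ne_zero (1 : k))
  have D3 : D (3 : RatFunc k) = 0 := by
    have := D.map_natCast 3
    rwa [Nat.cast_ofNat] at this
  rw [sx, sy, Derivation.leibniz_div]
  simp only [map_neg, Derivation.leibniz, Derivation.leibniz_pow, map_add, map_sub, D3, hD,
    Derivation.map_one_eq_zero, smul_eq_mul, nsmul_eq_mul]
  field_simp
  ring

theorem sy_ne {k : Type} [Field k] (k3 : (3 : k) ≠ 0) (r : RatFunc k) (hr : r ≠ 0) :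
    sy r RatFunc.X 1 ≠ 0 := by
  have h3 : (3 : RatFunc k) ≠ 0 := by
    have := (map_ne_zero (algebraMap k (RatFunc k))).2 k3
    rwa [map_ofNat] at this
  have h1 : (RatFunc.X - 1 : RatFunc k) ≠ 0 := by
    have e : (RatFunc.X - 1 : RatFunc k) = algebraMap k[X] (RatFunc k) (X - 1) := by
      rw [map_sub, RatFunc.algebraMap_X, map_one]
    rw [e]
    exact RatFunc.algebraMap_ne_zero (X_sub_C_ne_zero (1 : k))
  have h2 : (RatFunc.X + 3 : RatFunc k) ≠ 0 := by
    have e : (RatFunc.X + 3 : RatFunc k) = algebraMap k[X] (RatFunc k) (X + 3) := by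
      rw [map_add, RatFunc.algebraMap_X, map_ofNat]
    rw [e]
    exact RatFunc.algebraMap_ne_zero (X_add_C_ne_zero (3 : k))
  have h4 : (RatFunc.X ^ 2 - 6 * RatFunc.X - 3 : RatFunc k) ≠ 0 := by
    have e : (RatFunc.X ^ 2 - 6 * RatFunc.X - 3 : RatFunc k) =
        algebraMap k[X] (RatFunc k) (X ^ 2 - 6 * X - 3) := by
      simp only [map_sub, map_mul, map_pow, RatFunc.algebraMap_X, map_ofNat]
    rw [e]
    refine RatFunc.algebraMap_ne_zero ?_
    intro h
    have h1 := congrArg (fun p => Polynomial.coeff p 2) h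
    simp [coeff_X, coeff_X_pow, coeff_ofNat_mul] at h1
  rw [sy]
  exact div_ne_zero (neg_ne_zero.2 (mul_ne_zero (mul_ne_zero one_ne_zero h2) h4))
    (mul_ne_zero (mul_ne_zero h3 hr) (pow_ne_zero 3 h1))

theorem sp_mk {k : Type} [Field k] {L : Type} [Field L] [Algebra k L] {x₀ y₀ : L} {R : Gp k}
    {A B : RatFunc k} (hR : IsPt R A B) {u v u' v' : k[X]}
    (hA : A * algebraMap k[X] (RatFunc k) v = algebraMap k[X] (RatFunc k) u)
    (hB : B * algebraMap k[X] (RatFunc k) v' = algebraMap k[X] (RatFunc k) u')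
    (hv : aeval x₀ v ≠ 0) (hv' : aeval x₀ v' ≠ 0) {x y : L} (hx : aeval x₀ u / aeval x₀ v = x)
    (hy : y₀ * (aeval x₀ u' / aeval x₀ v') = y) (h : (Cv (6 : L) (-3)).Nonsingular x y) :
    IsSp x₀ y₀ R (Affine.Point.some x y h) := by
  obtain ⟨a1, a2⟩ := ev A u v hA x₀ hv
  obtain ⟨b1, b2⟩ := ev B u' v' hB x₀ hv'
  rw [← a2] at hx
  rw [← b2] at hy
  subst hx hy
  exact Or.inr ⟨A, B, h, hR, a1, b1, rfl⟩

/-- points of the twisted curve -/
theorem isPt_mk {k : Type} [Field k] (k2 : (2 : k) ≠ 0) (k3 : (3 : k) ≠ 0) {A B : RatFunc k}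
    (h : lam k * B ^ 2 = A ^ 3 + 6 * A ^ 2 - 3 * A) : ∃ R : Gp k, IsPt R A B := by
  have r2 : (2 : RatFunc k) ≠ 0 := by
    have := (map_ne_zero (algebraMap k (RatFunc k))).2 k2
    rwa [map_ofNat] at this
  have r3 : (3 : RatFunc k) ≠ 0 := by
    have := (map_ne_zero (algebraMap k (RatFunc k))).2 k3
    rwa [map_ofNat] at this
  have hl := lam_ne (k := k)
  have hn : (Cv (6 * lam k) (-3 * lam k ^ 2)).Nonsingular (lam k * A) (lam k ^ 2 * B) := by
    refine nons r2 (mul_ne_zero (neg_ne_zero.2 r3) (pow_ne_zero 2 hl)) ?_ ?_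
    · have e : (6 * lam k) ^ 2 - 4 * (-3 * lam k ^ 2) = 2 ^ 4 * 3 * lam k ^ 2 := by ring
      rw [e]
      exact mul_ne_zero (mul_ne_zero (pow_ne_zero 4 r2) r3) (pow_ne_zero 2 hl)
    · linear_combination lam k ^ 3 * h
  exact ⟨_, hn, rfl⟩

theorem lam_pow (q : ℕ) [Fact q.Prime] : lam (ZMod q) ^ q =
    (RatFunc.X ^ q) ^ 3 + 6 * (RatFunc.X ^ q) ^ 2 - 3 * RatFunc.X ^ q := by
  rw [lam_eq, ← map_pow, ← ZMod.expand_card]
  simp only [lamP, map_sub, map_add, map_mul, map_pow, expand_X, map_ofNat, RatFunc.algebraMap_X]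

theorem frob (_h1 : S_PAR) (h2 : S_DEG) (h3 : S_PTS) (h4 : S_D0) (h5 : S_DER) (h6 : S_QP)
    (h7 : S_CL) (h8 : S_SP) : S_FROB := by
  classical
  intro q hqf hq3 hsq a d hqad
  have hqp : q.Prime := hqf.out
  have hd := d_ne hq3 hqad
  have k2 : (2 : ZMod q) ≠ 0 := by
    have := (ZMod.natCast_eq_zero_iff 2 q).not.2
      (Nat.not_dvd_of_pos_of_lt (by norm_num) (by omega))
    exact_mod_cast this
  have k3 : (3 : ZMod q) ≠ 0 := by
    have := (ZMod.natCast_eq_zero_iff 3 q).not.2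
      (Nat.not_dvd_of_pos_of_lt (by norm_num) (by omega))
    exact_mod_cast this
  have hq0 : 4 * (a : ZMod q) ^ 2 + 3 * (d : ZMod q) ^ 2 = 0 := by
    have := congrArg (Int.cast : ℤ → ZMod q) hqad
    push_cast at this
    rw [← this]
    exact CharP.cast_eq_zero _ q
  obtain ⟨ρ, hρ⟩ : ∃ ρ : ZMod q, (d : ZMod q) * ρ = -(2 * a) :=
    ⟨-(2 * a) / d, by field_simp⟩
  have hρ2 : ρ ^ 2 = -3 := by
    have h' : (d : ZMod q) ^ 2 * (ρ ^ 2 + 3) = 0 := by
      linear_combination (d * ρ - 2 * a) * hρ + hq0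
    rcases mul_eq_zero.1 h' with h | h
    · exact absurd ((pow_eq_zero_iff two_ne_zero).1 h) hd
    · linear_combination h
  have hρ0 : ρ ≠ 0 := by
    rintro rfl
    apply k3
    linear_combination hρ2
  refine ⟨ρ, hρ2, ?_⟩
  obtain ⟨⟨P, hP⟩, ⟨S, hS⟩⟩ := h3 (ZMod q) k2 k3 ρ hρ2
  obtain ⟨D, hD⟩ := h4 (ZMod q)
  -- the generic point R
  obtain ⟨R, hRdef⟩ : ∃ R : Gp (ZMod q), R = (2 * a) • P + d • S := ⟨_, rfl⟩
  have hHH : HH R = q := by
    have := h2 (ZMod q) k2 k3 ρ hρ2 P S hP hS (2 * a) d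
    rw [← hRdef] at this
    have e : ((2 * a) ^ 2 + 3 * d ^ 2 : ℤ) = q := by rw [hqad]; ring
    rw [e] at this
    exact_mod_cast this
  have hR0 : R ≠ 0 := by
    rintro h0
    rw [h0] at hHH
    have : HH (0 : Gp (ZMod q)) = 0 := rfl
    rw [this] at hHH
    exact hqp.ne_zero hHH.symm
  -- the derivative
  have hC0 : (RatFunc.C ρ : RatFunc (ZMod q)) ≠ 0 := by
    rwa [Ne, map_eq_zero]
  have hcR : D (gx R) / gy R = 0 := by
    let cm : Gp (ZMod q) →+ RatFunc (ZMod q) :=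
      AddMonoidHom.mk' (fun R => D (gx R) / gy R) (h5 (ZMod q) k2 k3 D)
    have e1 : cm P = 1 := by
      show D (gx P) / gy P = 1
      rw [gx_pt hP, gy_pt hP, hD, div_one]
    have e2 : cm S = RatFunc.C ρ := by
      show D (gx S) / gy S = RatFunc.C ρ
      rw [gx_pt hS, gy_pt hS, D_sx k3 D hD _ hC0]
      exact mul_div_cancel_right₀ _ (sy_ne k3 _ hC0)
    have e3 : cm R = 0 := by
      rw [hRdef, map_add, map_zsmul, map_zsmul, e1, e2, zsmul_eq_mul, zsmul_eq_mul]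
      have e4 : ((d : ℤ) : RatFunc (ZMod q)) * RatFunc.C ρ = -(2 * a) := by
        have := congrArg (RatFunc.C : ZMod q →+* RatFunc (ZMod q)) hρ
        rw [map_mul, map_neg, map_mul, map_intCast, map_intCast, map_ofNat] at this
        exact this
      rw [e4]
      push_cast
      ring
    exact e3
  have r2 : (2 : RatFunc (ZMod q)) ≠ 0 := by
    have := (map_ne_zero (algebraMap (ZMod q) (RatFunc (ZMod q)))).2 k2
    rwa [map_ofNat] at this
  have r3 : (3 : RatFunc (ZMod q)) ≠ 0 := by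
    have := (map_ne_zero (algebraMap (ZMod q) (RatFunc (ZMod q)))).2 k3
    rwa [map_ofNat] at this
  have hDR : D (gx R) = 0 := by
    rcases div_eq_zero_iff.1 hcR with h | h
    · exact h
    · rcases R with _ | ⟨x, y, hn⟩
      · exact absurd rfl hR0
      · have hl := lam_ne (k := ZMod q)
        obtain ⟨A, hA⟩ : ∃ A : RatFunc (ZMod q), A = x / lam (ZMod q) := ⟨_, rfl⟩
        have hx : x = lam (ZMod q) * A := by rw [hA]; field_simp
        have hy : y = 0 := by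
          have h' : y / lam (ZMod q) ^ 2 = 0 := h
          rcases div_eq_zero_iff.1 h' with h'' | h''
          · exact h''
          · exact absurd h'' (pow_ne_zero 2 hl)
        have he := eqn hn
        rw [hy, hx] at he
        have he2 : lam (ZMod q) ^ 3 * (A * (A ^ 2 + 6 * A - 3)) = 0 := by
          linear_combination -he
        have he3 := (mul_eq_zero.1 he2).resolve_left (pow_ne_zero 3 hl)
        show D (x / lam (ZMod q)) = 0
        rw [← hA]
        have D3 : D (3 : RatFunc (ZMod q)) = 0 := by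
          have := D.map_natCast 3
          rwa [Nat.cast_ofNat] at this
        have D6 : D (6 : RatFunc (ZMod q)) = 0 := by
          have := D.map_natCast 6
          rwa [Nat.cast_ofNat] at this
        rcases mul_eq_zero.1 he3 with h4 | h4
        · rw [h4, map_zero]
        · have h5 := congrArg D h4
          rw [map_sub, map_add, Derivation.leibniz_pow, Derivation.leibniz, D3, D6, map_zero] at h5
          simp only [smul_eq_mul, nsmul_eq_mul, Nat.cast_ofNat, Nat.add_one_sub_one, pow_one,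
            mul_zero, add_zero, sub_zero] at h5
          have h6 : 2 * ((A + 3) * D A) = 0 := by linear_combination h5
          rcases mul_eq_zero.1 ((mul_eq_zero.1 h6).resolve_left r2) with h7 | h7
          · exfalso
            have : (2 : RatFunc (ZMod q)) ^ 2 * 3 = 0 := by
              linear_combination (A + 3) * h7 - h4
            exact mul_ne_zero (pow_ne_zero 2 r2) r3 this
          · exact h7
  have hHg : HH R = Hr (gx R) := by
    rcases R with _ | ⟨x, y, hn⟩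
    · exact absurd rfl hR0
    · rfl
  obtain ⟨g, hg, hgq⟩ := h6 q D hD (gx R) hDR
  have hg1 : Hr g = 1 := by
    rw [← hHg, hHH] at hgq
    exact (Nat.eq_of_mul_eq_mul_left hqp.pos (by omega)).symm
  have hodd : 2 * ((q - 1) / 2) + 1 = q := by
    have := (hqp.eq_two_or_odd).resolve_left (by omega)
    omega
  obtain ⟨m, hm⟩ : ∃ m : ℕ, m = (q - 1) / 2 := ⟨_, rfl⟩
  rw [← hm] at hodd
  obtain ⟨Φ, hΦ⟩ : ∃ Φ : Gp (ZMod q), IsPt Φ (RatFunc.X ^ q) (lam (ZMod q) ^ m) := by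
    refine isPt_mk k2 k3 ?_
    rw [← lam_pow, ← pow_mul, mul_comm m 2, ← pow_succ', hodd]
  obtain ⟨T, hT⟩ : ∃ T : Gp (ZMod q), IsPt T 0 0 := isPt_mk k2 k3 (by ring)
  have hcl := h7 q hq3 hsq R Φ T g hR0 hg hg1 (by rw [← hm]; exact hΦ) hT
  intro K _ _ _ _ s φ hs hφ
  have K2 : (2 : K) ≠ 0 := by
    have := (map_ne_zero (algebraMap (ZMod q) K)).2 k2
    rwa [map_ofNat] at this
  have K3 : (3 : K) ≠ 0 := by
    have := (map_ne_zero (algebraMap (ZMod q) K)).2 k3
    rwa [map_ofNat] at this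
  obtain ⟨hs0, hs1, hs2⟩ := hs
  obtain ⟨hφ0, hφ1⟩ := hφ
  have hsP : Spz K P (fun Q => Q) := by
    refine ⟨∅, Set.finite_empty, fun x₀ y₀ h _ => ?_⟩
    refine sp_mk hP (u := X) (v := 1) (u' := 1) (v' := 1) ?_ ?_ ?_ ?_ ?_ ?_ h
    · rw [map_one, mul_one, RatFunc.algebraMap_X]
    · rw [map_one, mul_one]
    · rw [map_one]; exact one_ne_zero
    · rw [map_one]; exact one_ne_zero
    · rw [map_one, aeval_X, div_one]
    · rw [map_one, div_one, mul_one]
  have hsS : Spz K S (fun Q => s Q) := by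
    refine ⟨{1}, Set.finite_singleton 1, fun x₀ y₀ h hx => ?_⟩
    have hx1 : x₀ ≠ 1 := fun h => hx h
    have hx2 : x₀ - 1 ≠ 0 := sub_ne_zero.2 hx1
    obtain ⟨h', e⟩ := hs2 x₀ y₀ h hx1
    show IsSp x₀ y₀ S (s (Affine.Point.some x₀ y₀ h))
    rw [e]
    have hρK : algebraMap (ZMod q) K ρ ≠ 0 := by
      rwa [Ne, map_eq_zero]
    have hX1 : (RatFunc.X - 1 : RatFunc (ZMod q)) ≠ 0 := by
      have e : (RatFunc.X - 1 : RatFunc (ZMod q)) =
          algebraMap (ZMod q)[X] (RatFunc (ZMod q)) (X - 1) := by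
        rw [map_sub, RatFunc.algebraMap_X, map_one]
      rw [e]
      exact RatFunc.algebraMap_ne_zero (X_sub_C_ne_zero (1 : ZMod q))
    refine sp_mk hS (u := -(X * (X + 3) ^ 2)) (v := 3 * (X - 1) ^ 2)
      (u' := -((X + 3) * (X ^ 2 - 6 * X - 3))) (v' := 3 * C ρ * (X - 1) ^ 3) ?_ ?_ ?_ ?_ ?_ ?_ h'
    · simp only [sx, map_neg, map_mul, map_sub, map_add, map_pow, RatFunc.algebraMap_X, map_ofNat,
        map_one]
      field_simp
    · simp only [sy, map_neg, map_mul, map_sub, map_add, map_pow, RatFunc.algebraMap_X, map_ofNat,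
        map_one, RatFunc.algebraMap_C]
      field_simp
    · simp only [map_mul, map_sub, map_pow, aeval_X, map_ofNat, map_one]
      positivity
    · simp only [map_mul, map_sub, map_pow, aeval_X, map_ofNat, map_one, aeval_C]
      positivity
    · simp only [sx, map_neg, map_mul, map_sub, map_add, map_pow, aeval_X, map_ofNat, map_one]
    · simp only [sy, map_neg, map_mul, map_sub, map_add, map_pow, aeval_X, map_ofNat, map_one,
        aeval_C]
      ring
  have hsΦ : Spz K Φ (fun Q => φ Q) := by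
    refine ⟨∅, Set.finite_empty, fun x₀ y₀ h _ => ?_⟩
    obtain ⟨h', e⟩ := hφ1 x₀ y₀ h
    show IsSp x₀ y₀ Φ (φ (Affine.Point.some x₀ y₀ h))
    rw [e]
    refine sp_mk hΦ (u := X ^ q) (v := 1) (u' := lamP (ZMod q) ^ m) (v' := 1)
      ?_ ?_ ?_ ?_ ?_ ?_ h'
    · rw [map_one, mul_one, map_pow, RatFunc.algebraMap_X]
    · rw [map_one, mul_one, map_pow, lam_eq]
    · rw [map_one]; exact one_ne_zero
    · rw [map_one]; exact one_ne_zero
    · rw [map_one, map_pow, aeval_X, div_one]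
    · rw [map_one, map_pow, lam_aeval, div_one]
      have e1 : x₀ ^ 3 + 6 * x₀ ^ 2 - 3 * x₀ = y₀ ^ 2 := by
        rw [eqn h]; ring
      rw [e1, ← pow_mul, ← pow_succ', hodd]
  obtain ⟨T0, hT0⟩ : ∃ T0 : Pt (6 : K) (-3), Spz K T (fun _ => T0) := by
    have hn : (Cv (6 : K) (-3)).Nonsingular 0 0 := by
      refine nons K2 (neg_ne_zero.2 K3) ?_ (by ring)
      have : (6 : K) ^ 2 - 4 * -3 = 2 ^ 4 * 3 := by norm_num
      rw [this]
      exact mul_ne_zero (pow_ne_zero _ K2) K3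
    refine ⟨Affine.Point.some 0 0 hn, ∅, Set.finite_empty, fun x₀ y₀ h _ => ?_⟩
    refine sp_mk hT (u := 0) (v := 1) (u' := 0) (v' := 1) ?_ ?_ ?_ ?_ ?_ ?_ hn
    · rw [map_one, mul_one, map_zero]
    · rw [map_one, mul_one, map_zero]
    · rw [map_one]; exact one_ne_zero
    · rw [map_one]; exact one_ne_zero
    · rw [map_one, map_zero, div_one]
    · rw [map_one, map_zero, div_one, mul_zero]
  obtain ⟨ε, δ, hε, hRe⟩ : ∃ ε δ : ℤ, (ε = 1 ∨ ε = -1) ∧ R = ε • Φ + δ • T := by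
    rcases hcl with h | h | h | h
    · exact ⟨1, 0, Or.inl rfl, by rw [h]; simp⟩
    · exact ⟨-1, 0, Or.inr rfl, by rw [h]; simp⟩
    · exact ⟨1, 1, Or.inl rfl, by rw [h]; simp⟩
    · exact ⟨-1, 1, Or.inr rfl, by rw [h]; simp⟩
  have w1 := (hsP.zsmul h8 k2 k3 (2 * a)).add h8 k2 k3 (hsS.zsmul h8 k2 k3 d)
  have w2 := (hsΦ.zsmul h8 k2 k3 ε).add h8 k2 k3 (hT0.zsmul h8 k2 k3 δ)
  rw [← hRdef] at w1
  rw [← hRe] at w2
  obtain ⟨B1, hB1, w1⟩ := w1
  obtain ⟨B2, hB2, w2⟩ := w2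
  have hz := gen_zero K2 K3 ((2 * a) • AddMonoidHom.id (Pt (6 : K) (-3)) + d • s - ε • φ)
    (δ • T0) (hB1.union hB2) (by
      intro x y h hx
      rw [Set.mem_union, not_or] at hx
      have := sp_unique (w1 x y h hx.1) (w2 x y h hx.2)
      beta_reduce at this
      simp only [AddMonoidHom.sub_apply, AddMonoidHom.add_apply, AddMonoidHom.zsmul_apply,
        AddMonoidHom.id_apply]
      rw [this]
      abel)
  refine ⟨ε, hε, fun Q => ?_⟩
  have hzQ := hz Q
  simp only [AddMonoidHom.sub_apply, AddMonoidHom.add_apply, AddMonoidHom.zsmul_apply,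
    AddMonoidHom.id_apply] at hzQ
  rw [sub_eq_zero.1 hzQ, smul_smul]
  rcases hε with rfl | rfl
  · simp
  · simp

end main

end Pool.Agent.W790.LL
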